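import Mathlib
import Pool.Agent.H32.IndF

open Set
open Cardinal hiding univ

namespace Pool.Agent.Results.MP_f21612_lc.RelCof

/-- ideals on the naturals containing all finite sets -/
def IsIdeal (J : Set (Set ℕ)) : Prop :=
  (∀ A : Set ℕ, A.Finite → A ∈ J) ∧ univ ∉ J ∧ (∀ A ∈ J, ∀ B ∈ J, A ∪ B ∈ J) ∧
    ∀ A ∈ J, ∀ B, B ⊆ A → B ∈ J

/-- sizes of cofinal subfamilies -/
def cofSizes (I : Set (Set ℕ)) : Set Cardinal.{0} :=
  {c | ∃ B : Set (Set ℕ), B ⊆ I ∧ (∀ A ∈ I, ∃ b ∈ B, A ⊆ b) ∧ #B = c}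

/-- sizes of subfamilies cofinal modulo `J` -/
def relSizes (J I : Set (Set ℕ)) : Set Cardinal.{0} :=
  {c | ∃ B : Set (Set ℕ), B ⊆ I ∧ (∀ A ∈ I, ∃ b ∈ B, A \ b ∈ J) ∧ #B = c}

theorem result : ∃ I J : Set (Set ℕ), IsIdeal I ∧ (∀ A, A ∈ I ∨ Aᶜ ∈ I) ∧
    IsLeast (cofSizes I) 𝔠 ∧ IsIdeal J ∧ J ⊆ I ∧ IsLeast (relSizes J I) ℵ₁ := by
  obtain ⟨U, G, p, X, h1, h2, h3, h4, h5, h6, h7, h8, h9, h10⟩ := Pool.Agent.H32.IndF.main
  have hcof : 𝔠 ∈ lowerBounds (cofSizes {A | Aᶜ ∈ U}) := by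
    rintro _ ⟨B, a1, a2, rfl⟩
    refine (h10 (compl '' B) ?_ fun A hA => ?_).trans mk_image_le
    · rintro _ ⟨b, hb, rfl⟩
      exact a1 hb
    · obtain ⟨b, hb, h⟩ := a2 Aᶜ (by simpa using hA)
      exact ⟨_, ⟨b, hb, rfl⟩, compl_subset_comm.1 h⟩
  have hnext : ∀ α : Pool.Agent.H32.IndF.W, ∃ β, α < β := fun α => by
    simpa using Pool.Agent.H32.IndF.W_bdd (countable_singleton α)
  have hX : ∀ β, X β ∈ U := fun β => by
    obtain ⟨γ, h⟩ := hnext β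
    exact (h5 _).2 ⟨γ, h3 _ _ h⟩
  have hrel : ℵ₁ ∈ lowerBounds (relSizes {A | ∀ α, A ∉ p α} {A | Aᶜ ∈ U}) := by
    rintro _ ⟨B, a1, a2, rfl⟩
    by_contra hlt
    have hB : B.Countable := le_aleph0_iff_set_countable.1 (lt_aleph_one_iff.1 (not_le.1 hlt))
    have : ∀ b : B, ∃ α, (b : Set ℕ)ᶜ ∈ G α := fun b => (h5 _).1 (a1 b.2)
    choose f hf using this
    have := hB.to_subtype
    obtain ⟨β, hβ⟩ := Pool.Agent.H32.IndF.W_bdd (countable_range f)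
    obtain ⟨b, hb, h⟩ := a2 (X β)ᶜ (by simpa using hX β)
    exact h β (Filter.inter_mem (Ultrafilter.compl_mem_iff_notMem.2 (h7 β β le_rfl))
      (h6 β _ (h2 _ _ (hβ _ ⟨⟨b, hb⟩, rfl⟩).le (hf ⟨b, hb⟩))))
  obtain ⟨α₀⟩ : Nonempty Pool.Agent.H32.IndF.W := by
    obtain ⟨α, -⟩ := (h5 univ).1 Filter.univ_mem
    exact ⟨α⟩
  refine ⟨{A | Aᶜ ∈ U}, {A | ∀ α, A ∉ p α}, ⟨fun A hA => h9 hA.compl_mem_cofinite, by simp,
    fun A hA B hB => ?_, fun A hA B h => Filter.mem_of_superset hA (compl_subset_compl.2 h)⟩,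
    fun A => ?_, ⟨?_, hcof⟩, ⟨fun A hA α => Ultrafilter.compl_mem_iff_notMem.1
      (h8 α hA.compl_mem_cofinite), fun h => h α₀ Filter.univ_mem, fun A hA B hB α h =>
      (Ultrafilter.union_mem_iff.1 h).elim (hA α) (hB α),
      fun A hA B h α h' => hA α (Filter.mem_of_superset h' h)⟩, fun A hA => ?_, ⟨?_, hrel⟩⟩
  · show (A ∪ B)ᶜ ∈ U
    rw [compl_union]
    exact Filter.inter_mem hA hB
  · simpa using (U.mem_or_compl_mem A).symm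
  · have h : #{A : Set ℕ | Aᶜ ∈ U} ∈ cofSizes {A | Aᶜ ∈ U} :=
      ⟨_, subset_rfl, fun A hA => ⟨A, hA, subset_rfl⟩, rfl⟩
    have : #{A : Set ℕ | Aᶜ ∈ U} = 𝔠 := le_antisymm ((mk_set_le _).trans (by simp)) (hcof h)
    exact this ▸ h
  · refine Ultrafilter.compl_mem_iff_notMem.2 fun h => ?_
    obtain ⟨α, hα⟩ := (h5 A).1 h
    exact hA α (h6 α A hα)
  · have h : #(range fun β => (X β)ᶜ) ∈ relSizes {A | ∀ α, A ∉ p α} {A | Aᶜ ∈ U} := by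
      refine ⟨_, ?_, fun A hA => ?_, rfl⟩
      · rintro _ ⟨β, rfl⟩
        simpa using hX β
      · obtain ⟨β, hβ⟩ := (h5 _).1 hA
        refine ⟨_, ⟨β, rfl⟩, fun α h => ?_⟩
        rcases le_total α β with e | e
        · exact h7 α β e (Filter.mem_of_superset h fun n hn => by simpa using hn.2)
        · exact Ultrafilter.compl_mem_iff_notMem.1 (h6 α _ (h2 _ _ e hβ))
            (Filter.mem_of_superset h fun n hn => hn.1)
    have : #(range fun β => (X β)ᶜ) = ℵ₁ :=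
      le_antisymm (mk_range_le.trans Pool.Agent.H32.IndF.W_card.le) (hrel h)
    exact this ▸ h

end Pool.Agent.Results.MP_f21612_lc.RelCof
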